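import Pool.Agent.Lib.SmN.F.SurjL
import Pool.Agent.Lib.SmN.F.NdV
import Pool.Agent.Lib.SmNJ.FInst
import Pool.Agent.Lib.SmNH.Shrink

/-!
# HEIGHTS over SMITH-U: local duality at the bad places for the instance `sysT`

`nd_std`: for a standard `S` (`IsStd`, `LocD`, `PermOk`), at every place `v`, a local class which is
orthogonal to all the local classes is a coboundary. `badOk_sysT`, `badOk_shrink`: the structure
`BadOk` for the instances.
-/

set_option autoImplicit false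
set_option linter.unusedSectionVars false

namespace Pool.Agent.SmN.F

open MulAction Pool.Agent.GBU Pool.Agent.BSDFF Pool.Agent.Lib.SmD Loc

variable {k K L : Type} [Field k] [Finite k] [Field K] [Algebra k K] [Algebra (RatFunc k) K]
  [IsScalarTower k (RatFunc k) K] [FiniteDimensional (RatFunc k) K]
  [Algebra.IsSeparable (RatFunc k) K]
  [Field L] [Algebra k L] [Algebra (RatFunc k) L]
  [IsScalarTower k (RatFunc k) L] [FiniteDimensional (RatFunc k) L]
  [Algebra.IsSeparable (RatFunc k) L] [Algebra K L] [FiniteDimensional K L]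
  {Om : Type} [Field Om] [Algebra K Om] [IsSepClosure K Om] [Algebra L Om] [IsSepClosure L Om]
  [IsScalarTower K L Om]
  {X : Type} [MulAction (Om ≃ₐ[K] Om) X] [Fintype X]
  {V V1 : Type} [AddCommGroup V] [DistribMulAction (Om ≃ₐ[K] Om) V] [AddCommGroup V1]
  [Module (ZMod 2) V1]

/-- Local duality for a standard `S`. -/
theorem nd_std [Nonempty X] (h2 : (2 : k) ≠ 0)
    {S : Sys (Om ≃ₐ[K] Om) V V1 (Place k K)} (hS : IsStd S) (hL : LocD S qK)
    {i : V1 →ₗ[ZMod 2] (X → ZMod 2)} {p : (X → ZMod 2) →ₗ[ZMod 2] V1} (hP : PermOk S X i p)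
    {x0 : X} {r : X → (Om ≃ₐ[K] Om)} (hr : ∀ x, r x • x = x0)
    (hst : stabilizer (Om ≃ₐ[K] Om) x0 = rg K L Om) (v : Place k K) {x : V1 × V1}
    (hx : x ∈ S.CP v) (h0 : ∀ y ∈ S.CP v, S.sy v y x = 0) : ∃ z, x = S.cob v z := by
  have htriv : ∃ N ∈ NP K Om, ∀ n ∈ N, ∀ x : X, n • x = x := by
    rw [← hS.NN]
    exact hP.triv
  have hG := fun v => lg_std h2 hS htriv v
  have hinf : ∀ N ∈ S.NN, ∀ N' ∈ S.NN, N ⊓ N' ∈ S.NN := by
    rw [hS.NN]
    exact fun N hN N' hN' => inf_mem_NP hN hN'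
  obtain ⟨E, hE⟩ := exists_orbE S (fun v => qK v) (X := X) hG
  exact ndV hL hP hE hG hinf hr (surj_std (L := L) h2 hS hr hst htriv hE v) hx h0

end Pool.Agent.SmN.F

namespace Pool.Agent.SmNH

open MulAction Pool.Agent.GBU Pool.Agent.BSDFF Pool.Agent.Lib.SmD Pool.Agent.SmN Pool.Agent.SmN.F
open Pool.Agent.SmNJ
open scoped IntermediateField
open Pool.Agent.SmJ Pool.Agent.SmJ.L

variable (k K Ω : Type) [Field k] [Finite k] [Field K] [Algebra k K] [Algebra (RatFunc k) K]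
  [IsScalarTower k (RatFunc k) K] [FiniteDimensional (RatFunc k) K]
  [Algebra.IsSeparable (RatFunc k) K] [Field Ω] [Algebra K Ω] [IsSepClosure K Ω] {g : ℕ}
  (a : Fin (2 * g + 1) → Ω) [RtG K a] [HypA a]

/-- Local duality for `sysN` at every place. -/
theorem ndN (h2 : (2 : k) ≠ 0) (hn : ((2 * g + 1).factorial : K) ≠ 0)
    (htr : ∀ i, ∃ s : Ω ≃ₐ[K] Ω, pm K a s i = 0) (v : Place k K) (x : EV g × EV g)
    (hx : x ∈ (sysN k K Ω a).CP v)
    (h0 : ∀ y ∈ (sysN k K Ω a).CP v, (sysN k K Ω a).sy v y x = 0) :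
    ∃ z, x = (sysN k K Ω a).cob v z := by
  have halg : Algebra.IsAlgebraic K Ω := (IsSepClosure.separable (k := K) (K := Ω)).isAlgebraic
  have hsep : Algebra.IsSeparable K Ω := IsSepClosure.separable
  have hsc : IsSepClosed Ω := IsSepClosure.sep_closed K
  have hfd : FiniteDimensional K K⟮a 0⟯ :=
    IntermediateField.adjoin.finiteDimensional (Algebra.IsIntegral.isIntegral (a 0))
  have hsepL : IsSepClosure K⟮a 0⟯ Ω :=
    ⟨hsc, Algebra.isSeparable_tower_top_of_isSeparable K K⟮a 0⟯ Ω⟩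
  letI algR : Algebra (RatFunc k) K⟮a 0⟯ :=
    ((algebraMap K K⟮a 0⟯).comp (algebraMap (RatFunc k) K)).toAlgebra
  letI algk : Algebra k K⟮a 0⟯ := ((algebraMap K K⟮a 0⟯).comp (algebraMap k K)).toAlgebra
  have ht1 : IsScalarTower (RatFunc k) K K⟮a 0⟯ := IsScalarTower.of_algebraMap_eq fun x => rfl
  have ht2 : IsScalarTower k (RatFunc k) K⟮a 0⟯ :=
    IsScalarTower.of_algebraMap_eq fun x =>
      congrArg (algebraMap K K⟮a 0⟯) (IsScalarTower.algebraMap_apply k (RatFunc k) K x)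
  have hfd2 : FiniteDimensional (RatFunc k) K⟮a 0⟯ := FiniteDimensional.trans (RatFunc k) K K⟮a 0⟯
  have hs2 : Algebra.IsSeparable (RatFunc k) K⟮a 0⟯ :=
    Algebra.IsSeparable.trans (RatFunc k) K K⟮a 0⟯
  letI := actN K a
  choose r hr using htr
  exact nd_std (L := K⟮a 0⟯) (X := Fin (2 * g + 1)) h2
    (S := sysN k K Ω a) ⟨rfl, fun _ => rfl, fun _ => rfl, fun _ => rfl⟩ (locDN h2 hn)
    (permOkN k K Ω a hn) (x0 := 0) (r := r) hr stab_zero v hx h0

/-- **Local duality at the bad places for `sysT`.** -/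
theorem badOk_sysT (h2 : (2 : k) ≠ 0) (hn : ((2 * g + 1).factorial : K) ≠ 0)
    (htr : ∀ i, ∃ s : Ω ≃ₐ[K] Ω, pm K a s i = 0) (T0 : Set (Place k K)) :
    BadOk (sysT k K Ω a T0) := ⟨fun v _ => ndN k K Ω a h2 hn htr v⟩

/-- **Local duality at the bad places for `sysT` with any set of good places.** -/
theorem badOk_shrink (h2 : (2 : k) ≠ 0) (hn : ((2 * g + 1).factorial : K) ≠ 0)
    (htr : ∀ i, ∃ s : Ω ≃ₐ[K] Ω, pm K a s i = 0) (T0 U : Set (Place k K)) :
    BadOk (shrink (sysT k K Ω a T0) U) := ⟨fun v _ => ndN k K Ω a h2 hn htr v⟩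

end Pool.Agent.SmNH
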