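import Pool.Agent.Lib.SmH.Inst.K2
import Pool.Agent.Lib.GBU.H.RedK
import Pool.Agent.Lib.GBU.H.NPx
import Pool.Agent.Lib.SmN.P.Coh
import Pool.Agent.Lib.SmN.F.LInst

/-!
# HEIGHTS over SMITH-U, instance: K2, the Hasse principle for two-cocycles with values in `MuT Ω` over a
global function field `K`

`HOk.hasse` (see `SmNH/Defs.lean`) for every `S` with `NN = NP K Ω`, `D = dvK Ω`.
`hasseZ`: `SmN.F.HasseZ L Ω` for every finite separable `L / k(t)`.
-/

set_option autoImplicit false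

namespace Pool.Agent.SmNH

open Pool.Agent.SmH Pool.Agent.SmithC Pool.Agent.SmP Pool.Agent.SmD Pool.Agent.Lib.SmD
  Pool.Agent.BSDFF Pool.Agent.GBU Pool.Agent.GBUH Pool.Agent.SmN.F

/-- Transport of a local splitting to the conjugate subgroup. -/
theorem conj_split {G M : Type*} [Group G] [AddCommGroup M] [DistribMulAction G M]
    {c : G → G → M} (hcoc : ∀ s t w, c s t + c (s * t) w = s • c t w + c s (t * w))
    {β : G → M} {D : Set G} (h : ∀ s ∈ D, ∀ t ∈ D, c s t = β s + s • β t - β (s * t))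
    (g : G) {x y : G} (hx : g⁻¹ * x * g ∈ D) (hy : g⁻¹ * y * g ∈ D) :
    c x y = (g • β (g⁻¹ * x * g) - c g (g⁻¹ * x * g) + c x g) +
      x • (g • β (g⁻¹ * y * g) - c g (g⁻¹ * y * g) + c y g) -
      (g • β (g⁻¹ * (x * y) * g) - c g (g⁻¹ * (x * y) * g) + c (x * y) g) := by
  obtain ⟨x', rfl⟩ : ∃ x', x = g * x' * g⁻¹ := ⟨g⁻¹ * x * g, by group⟩
  obtain ⟨y', rfl⟩ : ∃ y', y = g * y' * g⁻¹ := ⟨g⁻¹ * y * g, by group⟩
  have e1 : g⁻¹ * (g * x' * g⁻¹) * g = x' := by group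
  have e2 : g⁻¹ * (g * y' * g⁻¹) * g = y' := by group
  have e3 : g⁻¹ * (g * x' * g⁻¹ * (g * y' * g⁻¹)) * g = x' * y' := by group
  have e4 : g * x' * g⁻¹ * g = g * x' := by group
  have e5 : g * y' * g⁻¹ * g = g * y' := by group
  rw [e1] at hx
  rw [e2] at hy
  rw [e1, e2, e3]
  have h1 := hcoc g x' y'
  have h3 := hcoc (g * x' * g⁻¹) g y'
  have h4 := hcoc (g * x' * g⁻¹) (g * y' * g⁻¹) g
  rw [e4] at h3
  rw [e5] at h4
  have h5 := h x' hx y' hy
  have h6 : β (x' * y') = β x' + x' • β y' - c x' y' := by rw [h5]; abel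
  rw [h6]
  have e6 : (g * x' * g⁻¹) • g • β y' = g • x' • β y' := by
    rw [smul_smul, smul_smul, e4]
  rw [smul_add (g * x' * g⁻¹), smul_sub (g * x' * g⁻¹), e6, smul_sub g, smul_add g]
  have h7 : g • c x' y' = c g x' + c (g * x') y' - c g (x' * y') := by rw [h1]; abel
  have h8 : c (g * x') y' = (g * x' * g⁻¹) • c g y' + c (g * x' * g⁻¹) (g * y') -
      c (g * x' * g⁻¹) g := by rw [← h3]; abel
  have h9 : c (g * x' * g⁻¹) (g * y') = c (g * x' * g⁻¹) (g * y' * g⁻¹) +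
      c (g * x' * g⁻¹ * (g * y' * g⁻¹)) g - (g * x' * g⁻¹) • c (g * y' * g⁻¹) g := by
    rw [h4]; abel
  rw [h7, h8, h9]
  abel

section smul

variable {K Ω : Type} [Field K] [Field Ω] [Algebra K Ω]

theorem uU_smulK (s : Ω ≃ₐ[K] Ω) (a : MuT Ω) : uU (s • a) = s • uU a := Units.ext rfl

/-- `MuT Ω` is killed by `2 ^ e`: fixed by an element of `NP`. -/
theorem exists_NP_mu [IsSepClosed Ω] [IsGalois K Ω] (h2 : (2 : K) ≠ 0) (e : ℕ) :
    ∃ N ∈ NP K Ω, ∀ s ∈ N, ∀ m : MuT Ω, (2 : ℕ) ^ e • m = 0 → s • m = m := by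
  have h2' : (2 : Ω) ≠ 0 := by
    intro h
    apply h2
    apply (algebraMap K Ω).injective
    rw [map_ofNat, map_zero]
    exact h
  obtain ⟨N, hN, h⟩ := MuT.act (K := K) h2' (zet Ω e)
  refine ⟨N, NN_subset_NP h2 hN, fun s hs m hm => ?_⟩
  obtain ⟨a, ha⟩ := exists_nsmul_zet h2' hm
  rw [ha, smul_comm, h s hs]

end smul

section main

variable {k K Ω : Type} [Field k] [Finite k] [Field K] [Algebra k K] [Algebra (RatFunc k) K]
  [IsScalarTower k (RatFunc k) K] [FiniteDimensional (RatFunc k) K]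
  [Algebra.IsSeparable (RatFunc k) K] [Field Ω] [Algebra K Ω] [IsSepClosure K Ω]
  {V V1 : Type*} [AddCommGroup V] [DistribMulAction (Ω ≃ₐ[K] Ω) V] [AddCommGroup V1]
  [Module (ZMod 2) V1]

/-- K2 for `MuT Ω` over `K`, the field `HOk.hasse` word for word. -/
theorem hasse_muT (h2 : (2 : k) ≠ 0) {S : SmN.Sys (Ω ≃ₐ[K] Ω) V V1 (Place k K)}
    (hNN : S.NN = NP K Ω) (hD : ∀ v, S.D v = dvK Ω v)
    (c : (Ω ≃ₐ[K] Ω) → (Ω ≃ₐ[K] Ω) → MuT Ω) (hc : S.TF2 c)
    (hcoc : ∀ s t w, c s t + c (s * t) w = s • c t w + c s (t * w))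
    (hloc : ∀ v, S.Coh (S.D v) c (fun _ _ => 0)) :
    ∃ b : (Ω ≃ₐ[K] Ω) → MuT Ω, S.TF b ∧ ∀ s t, c s t = b s + s • b t - b (s * t) := by
  have hg : IsGalois K Ω := IsSepClosure.isGalois
  have hsc : IsSepClosed Ω := IsSepClosure.sep_closed K
  have h2' : (2 : K) ≠ 0 := two_ne_K h2
  obtain ⟨N, hN, hNc⟩ := hc
  rw [hNN] at hN
  have hNn := NP.normal hN
  have hfin : Finite ((Ω ≃ₐ[K] Ω) ⧸ N) := Subgroup.quotient_finite_of_isOpen N (NP.isOpen hN)
  obtain ⟨e, he⟩ := exists_exp N c hNc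
  obtain ⟨b, hbM, ⟨N', -, hN'o, hbN⟩, hb⟩ := hasseK_mu (k := k) (Ω := Ω) h2 e
    (fun s t => uU (c s t)) (fun s t => uU_pow (he s t))
    ⟨N, NP.isOpen hN, fun s t n hn m hm => congrArg uU (hNc s t n hn m hm)⟩
    (fun s t w => by
      change uU (c s t) * uU (c (s * t) w) = s • uU (c t w) * uU (c s (t * w))
      rw [← uU_add, hcoc, uU_add, uU_smulK])
    (fun w hw => by
      obtain ⟨v, hv⟩ := exists_place_below k K w hw
      obtain ⟨g, hg'⟩ := exists_tr (K := K) (w := abK Ω v) (w' := w) (by rw [below_abK, hv])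
      obtain ⟨β, ⟨M, hM, h1⟩, h3⟩ := hloc v
      rw [hNN] at hM
      have hMn := NP.normal hM
      have hdec : ∀ s, s ∈ dec K w → g⁻¹ * s * g ∈ S.D v := by
        intro s hs
        rw [hD, ← mem_dec_tr, ← hg']
        exact hs
      have h5 : ∀ s ∈ S.D v, ∀ t ∈ S.D v, c s t = β s + s • β t - β (s * t) := by
        intro s hs t ht
        have h6 := h3 s hs t ht
        rwa [zero_add] at h6
      refine ⟨fun s => uU (g • β (g⁻¹ * s * g) - c g (g⁻¹ * s * g) + c s g),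
        ⟨N ⊓ M, ?_, fun s hs n hn hnD => ?_⟩, fun s hs t ht => ?_⟩
      · rw [Subgroup.coe_inf]
        exact (NP.isOpen hN).inter (NP.isOpen hM)
      · have e1 : g⁻¹ * (s * n) * g = g⁻¹ * s * g * (g⁻¹ * n * g) := by group
        have hnM : g⁻¹ * n * g ∈ M := by
          have := hMn.conj_mem n hn.2 g⁻¹
          rwa [inv_inv] at this
        have hnN : g⁻¹ * n * g ∈ N := by
          have := hNn.conj_mem n hn.1 g⁻¹
          rwa [inv_inv] at this
        have e2 : c g (g⁻¹ * s * g * (g⁻¹ * n * g)) = c g (g⁻¹ * s * g) := by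
          have := hNc g (g⁻¹ * s * g) 1 N.one_mem _ hnN
          rwa [mul_one] at this
        have e3 : c (s * n) g = c s g := by
          have := hNc s g n hn.1 1 N.one_mem
          rwa [mul_one] at this
        beta_reduce
        rw [e1, h1 _ (hdec s hs) _ hnM (hdec n hnD), e2, e3]
      · have h6 := conj_split (D := (S.D v : Set (Ω ≃ₐ[K] Ω))) hcoc h5 g (hdec s hs) (hdec t ht)
        beta_reduce
        rw [h6, uU_sub, uU_add, uU_smulK])
  choose a ha using fun s => exists_uU (hbM s)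
  have hae : ∀ s, (2 : ℕ) ^ e • a s = 0 := by
    intro s
    apply uU_inj
    have h3 : uU ((2 : ℕ) ^ e • a s) = uU (a s) ^ (2 ^ e) := rfl
    rw [h3, ha, hbM]
    rfl
  have hac : ∀ s t, c s t = a s + s • a t - a (s * t) := by
    intro s t
    apply uU_inj
    rw [uU_sub, uU_add, uU_smulK, ha, ha, ha]
    exact hb s t
  obtain ⟨M, hM, h⟩ := exists_NP_cochain h2' ⟨N, hN, hNc⟩ (exists_NP_mu h2' e) hae
    ⟨N', hN'o, fun s n hn => uU_inj (by rw [ha, ha, hbN s n hn])⟩ hac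
  exact ⟨a, ⟨M, by rw [hNN]; exact hM, h⟩, hac⟩

omit [Algebra k K] [IsScalarTower k (RatFunc k) K] in
/-- The Hasse principle for `H^2(K, ZMod 2)` in the form used by block F of SmN. -/
theorem hasseZ (h2 : (2 : k) ≠ 0) : SmN.F.HasseZ K Ω := by
  rintro c ⟨U, hU, hc⟩ hcoc hloc
  obtain ⟨b, ⟨N, -, hN, hb⟩, h⟩ := hasseK (k := k) (Ω := Ω) h2 c
    ⟨U, hU, fun s t n hn m hm => hc s t n hn m hm⟩ hcoc hloc
  exact ⟨b, ⟨N, hN, hb⟩, h⟩

end main

end Pool.Agent.SmNH
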