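import Pool.Agent.Lib.SmNH.Inst.K1
import Pool.Agent.Lib.SmNH.Inst.K2
import Pool.Agent.Lib.SmNJ.FInst

/-!
# HEIGHTS over SMITH-U, instance: `HOk` over a global function field `K`

`exists_hOk`: for every standard `S` with Weil pairings `e`; `exists_hOkN`, `exists_hOkT`: for the
Jacobians `sysN`, `sysT`.
-/

set_option autoImplicit false

namespace Pool.Agent.SmNH

open Pool.Agent.SmN Pool.Agent.SmP Pool.Agent.SmD Pool.Agent.Lib.SmD Pool.Agent.BSDFF
  Pool.Agent.GBU

section gen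

variable {k K Om : Type} [Field k] [Finite k] [Field K] [Algebra k K] [Algebra (RatFunc k) K]
  [IsScalarTower k (RatFunc k) K] [FiniteDimensional (RatFunc k) K]
  [Algebra.IsSeparable (RatFunc k) K] [Field Om] [Algebra K Om] [IsSepClosure K Om]
  {V V1 : Type} [AddCommGroup V] [DistribMulAction (Om ≃ₐ[K] Om) V]
  [AddCommGroup V1] [Module (ZMod 2) V1]

/-- The additional data and facts for a standard system. -/
theorem exists_hOk (h2 : (2 : k) ≠ 0) {S : Sys (Om ≃ₐ[K] Om) V V1 (Place k K)} (hS : F.IsStd S)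
    {e : ℕ → V → V → MuT Om} (hw : Weil S e (hfM Om)) :
    ∃ H : HData V (MuT Om) (Place k K), H.e = e ∧ H.j = hfM Om ∧ (∀ v, H.deg v = v.degree) ∧
      IsNmK H.nm ∧ HOk S H := by
  obtain ⟨nm, h1, h3, h4⟩ := exists_nmK (K := K) (Om := Om) h2
  exact ⟨⟨e, hfM Om, fun v => v.degree, nm⟩, rfl, rfl, fun _ => rfl, h1,
    hOk_of h2 S _ hS.NN hS.sg rfl (fun _ => rfl) h1 h3 h4 hw
      (hasse_muT h2 hS.NN hS.D)⟩

end gen

section inst

open Pool.Agent.SmJ Pool.Agent.SmNJ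

variable {k K Om : Type} [Field k] [Field K] [Algebra k K] [Field Om] [Algebra K Om]
  {g : ℕ} (a : Fin (2 * g + 1) → Om) [RtG K a] [HypA a]

theorem isStd_sysN : F.IsStd (sysN k K Om a) := ⟨rfl, fun _ => rfl, fun _ => rfl, fun _ => rfl⟩

theorem isStd_sysT (T0 : Set (Place k K)) : F.IsStd (sysT k K Om a T0) :=
  ⟨rfl, fun _ => rfl, fun _ => rfl, fun _ => rfl⟩

/-- The Weil pairing for `sysT`. -/
theorem weilT [IsSepClosed Om] [Infinite Om] (T0 : Set (Place k K)) :
    Weil (sysT k K Om a T0) (fun m x y => wM m (x : JJ (ff a)) (y : JJ (ff a))) (hfM Om) :=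
  have h := weilN k (K := K) (a := a)
  ⟨h.add_left, h.add_right, h.alt, h.comp, h.equiv, h.one, h.fix⟩

/-- The additional data and facts for the Jacobians. -/
theorem exists_hOkT [Finite k] [Algebra (RatFunc k) K] [IsScalarTower k (RatFunc k) K]
    [FiniteDimensional (RatFunc k) K] [Algebra.IsSeparable (RatFunc k) K] [IsSepClosure K Om]
    [IsSepClosed Om] [Infinite Om] (h2 : (2 : k) ≠ 0) :
    ∃ H : HData (VN a) (MuT Om) (Place k K),
      (H.e = fun m (x y : VN a) => wM m (x : JJ (ff a)) (y : JJ (ff a))) ∧ H.j = hfM Om ∧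
      (∀ v, H.deg v = v.degree) ∧ IsNmK H.nm ∧ HOk (sysN k K Om a) H ∧
      ∀ T0 : Set (Place k K), HOk (sysT k K Om a T0) H := by
  obtain ⟨H, h1, h3, h4, h5, h6⟩ := exists_hOk h2 (isStd_sysN (k := k) (K := K) a)
    (weilN k (K := K) (a := a))
  exact ⟨H, h1, h3, h4, h5, h6, fun T0 => ⟨by rw [h1, h3]; exact weilT a T0, h6.inj, h6.two,
    h6.tors, h6.half, h6.act, h6.sgM, h6.nm_inj, h6.nm_j, h6.prod, h6.hasse⟩⟩

end inst

end Pool.Agent.SmNH
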