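import Pool.Agent.Lib.SmNJ.Asm
import Pool.Agent.Lib.SmNH.Main
import Pool.Agent.Lib.SmNH.Inst.HOkK
import Pool.Agent.Lib.SmNH.Inst.Bad

/-!
# HEIGHTS over SMITH-U: the arithmetic input for the instance over every global function field

The geometric Galois group has the same image on the 2-torsion as the whole group: then the
Frobenius element can be chosen in the kernel of the action on the 2-torsion.
-/

set_option autoImplicit false

open Polynomial

namespace Pool.Agent.SmNH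

open Pool.Agent.SmJ Pool.Agent.SmNJ
open Pool.Agent.SmJ.L (EV dotE)
open Pool.Agent.BSDFF Pool.Agent.GBU Pool.Agent.GBC Pool.Agent.SmP
open Pool.Agent.SmN (AOk ChebT CData FOk)
open Pool.Agent.SmN.Ch (LagV LagF XX XT)

section main

variable (k K Ω : Type) [Field k] [Finite k] [Field K] [Algebra k K] [Algebra (RatFunc k) K]
  [IsScalarTower k (RatFunc k) K] [FiniteDimensional (RatFunc k) K]
  [Algebra.IsSeparable (RatFunc k) K] [Field Ω] [Algebra K Ω] [IsSepClosure K Ω] {g : ℕ}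
  (a : Fin (2 * g + 1) → Ω) [RtG K a] [HypA a]

variable {k K Ω} in
/-- Frobenius elements in the kernel of the action. -/
theorem exists_fr_GN {fr : Ω ≃ₐ[K] Ω} (hfr : IsFrC k fr)
    (hgeo : ∀ s : Ω ≃ₐ[K] Ω, ∃ t ∈ GeoK k K Ω, ∀ w, acN K a t w = acN K a s w)
    (T0 : Set (Place k K)) :
    ∃ fr' : Ω ≃ₐ[K] Ω, IsFrC k fr' ∧ fr' ∈ (sysT k K Ω a T0).GN := by
  obtain ⟨t, ht, h⟩ := hgeo fr
  refine ⟨fr * t⁻¹, fun x hx => ?_, ?_⟩
  · have h1 : t⁻¹ x = x := by
      have h2 := (GeoK k K Ω).inv_mem ht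
      exact h2 x hx
    rw [AlgEquiv.mul_apply, h1]
    exact hfr x hx
  · change fr * t⁻¹ ∈ (sysT k K Ω a T0).ac.ker
    rw [MonoidHom.mem_ker]
    have h3 : acN K a t = acN K a fr := LinearEquiv.ext h
    change acN K a (fr * t⁻¹) = 1
    rw [map_mul, map_inv, h3, mul_inv_cancel]

/-- **The arithmetic input of SmNH for the instance.** -/
theorem exists_ahOk (h2 : (2 : k) ≠ 0) (hn : ((2 * g + 1).factorial : K) ≠ 0)
    (hk : ∀ x : K, IsIntegral k x → ∃ c : k, algebraMap k K c = x) (hg : 1 ≤ g)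
    (hb : BigIm K a)
    (hgeo : ∀ s : Ω ≃ₐ[K] Ω, ∃ t ∈ GeoK k K Ω, ∀ w, acN K a t w = acN K a s w)
    {W : Set (Place k K)} (hW : W.Finite) :
    ∃ (T0 : Finset (Place k K)) (T : Set (Place k K)) (fr : Ω ≃ₐ[K] Ω) (ca cC : ℕ)
      (H : HData (VN a) (MuT Ω) (Place k K)),
      T.Finite ∧ W ⊆ T ∧ PrinOut T ∧ (sysT k K Ω a T0).goodᶜ ⊆ T ∧ IsFrC k fr ∧
      (∀ v, H.deg v = v.degree) ∧ IsNmK H.nm ∧
      AOk (shrink (sysT k K Ω a T0) Tᶜ) T Place.degree (Nat.card k) (GeoK k K Ω) fr ca cC 1 ∧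
      AHOk (shrink (sysT k K Ω a T0) Tᶜ) H T Place.degree := by
  have hgal : IsGalois K Ω := IsSepClosure.isGalois
  obtain ⟨T0, hok, hV⟩ := exists_sysT_ok (k := k) (K := K) (Ω := Ω) (a := a) h2 hn
    (hb.trans hg)
  obtain ⟨G, -⟩ := exists_geo k K
  obtain ⟨T, hT, hsub, -, hP⟩ := exists_S G (W ∪ (sysT k K Ω a T0).goodᶜ)
    (hW.union (good_finT (Finset.finite_toSet T0)))
  obtain ⟨fr0, hfr0⟩ := exists_isFrC (k := k) (K := K) (Om := Ω) fun x hx =>
    hk x (SmBU.isIntegral_iff_isC.2 hx)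
  obtain ⟨fr, hfr, hGN⟩ := exists_fr_GN a hfr0 hgeo T0
  have hsc : IsSepClosed Ω := IsSepClosure.sep_closed K
  have hinf : Infinite Ω := infinite_Om k K Ω
  obtain ⟨H, -, -, hHdeg, hHnm, -, hHok⟩ := exists_hOkT (k := k) (K := K) (Om := Ω) a h2
  have hbad : (sysT k K Ω a T0).goodᶜ ⊆ T := Set.subset_union_right.trans hsub
  have hU : Tᶜ ⊆ (sysT k K Ω a T0).good := fun v hv => by
    by_contra h
    exact hv (hbad h)
  have hok' : (shrink (sysT k K Ω a T0) Tᶜ).Ok := ok_shrink hok hU (by rwa [compl_compl])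
  obtain ⟨ca, cC, hC⟩ := SmBU.chebT (S := shrink (sysT k K Ω a T0) Tᶜ) rfl rfl rfl h2 hT hfr
  have hL : LagV (sysT k K Ω a T0) T := hV T hT hbad
  refine ⟨T0, T, fr, ca, cC, H, hT, Set.subset_union_left.trans hsub, hP, hbad, hfr,
    hHdeg, hHnm, ?_, ?_⟩
  · exact
      { ok := hok'
        fi := fun _ hN => NP.finiteIndex hN
        up := fun _ hN _ hN' hle => mem_NP_of_le hN hN' hle
        lagV := ⟨hT, by rw [shrink_good, compl_compl], hL.inj, hL.surj, hL.ram⟩
        lagF := SmN.Ch.lagF_of h2 rfl rfl rfl rfl hT hP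
        nofix := hb.nofix hg
        span := hb.span' hg
        xok := xok k K hk hT
        geo := geoOk_shrink (geoOk_big h2 hb hfr)
        cheb := hC
        m0_pos := le_refl 1
        m0_mem := by
          rw [pow_one]
          exact hGN }
  · exact
      { hok := hok_shrink (hHok T0)
        bad := badOk_shrink k K Ω a h2 hn (hb.trans hg) T0 Tᶜ
        good := rfl
        deg := fun v _ => hHdeg v }

end main

end Pool.Agent.SmNH
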