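import Pool.Agent.Lib.SmN.Fin.GeoS
import Pool.Agent.Lib.SmNJ.Defs

/-!
# HEIGHTS over SMITH-U: the geometric Galois group and the action on the 2-torsion
-/

set_option autoImplicit false

open Polynomial Equiv

namespace Pool.Agent.SmNH

open Pool.Agent.SmJ Pool.Agent.SmNJ Pool.Agent.GBU

variable {k K Ω : Type} [Field K] [Field Ω] [Algebra K Ω] {g : ℕ}
  {a : Fin (2 * g + 1) → Ω} [RtG K a]

/-- If the geometric Galois group maps onto the permutations of the roots, then its image in the
automorphisms of the 2-torsion is the image of the whole Galois group. -/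
theorem hgeo_of_map (h : (GeoK k K Ω).map (pm K a) = ⊤) (s : Ω ≃ₐ[K] Ω) :
    ∃ t ∈ GeoK k K Ω, ∀ w, acN K a t w = acN K a s w := by
  obtain ⟨t, ht, h1⟩ : pm K a s ∈ (GeoK k K Ω).map (pm K a) := by
    rw [h]
    exact Subgroup.mem_top _
  have h3 : acN K a t = acN K a s := by
    change permE g (pm K a t) = permE g (pm K a s)
    rw [h1]
  exact ⟨t, ht, fun w => by rw [h3]⟩

/-- The same if only the images of the geometric and of the whole Galois group agree. -/
theorem hgeo_of_range (h : (GeoK k K Ω).map (pm K a) = (pm K a).range) (s : Ω ≃ₐ[K] Ω) :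
    ∃ t ∈ GeoK k K Ω, ∀ w, acN K a t w = acN K a s w := by
  obtain ⟨t, ht, h1⟩ : pm K a s ∈ (GeoK k K Ω).map (pm K a) := by
    rw [h]
    exact ⟨s, rfl⟩
  have h3 : acN K a t = acN K a s := by
    change permE g (pm K a t) = permE g (pm K a s)
    rw [h1]
  exact ⟨t, ht, fun w => by rw [h3]⟩

/-- The polynomial version: the Galois group of `F` is the symmetric group and the discriminant is
not a constant times a square. -/
theorem hgeo_poly [Field k] [Algebra k K] [Finite k] [IsGalois K Ω] [IsSepClosed Ω]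
    (h2 : (2 : k) ≠ 0) {F : K[X]} (hm : F.Monic) (hsep : F.Separable)
    (ha : ff a = F.map (algebraMap K Ω)) (hG : Nat.card F.Gal = (2 * g + 1).factorial)
    (hd : ∀ (c : k) (s : K), F.discr ≠ algebraMap k K c * s ^ 2)
    (hK : ∀ x : K, IsC k x → ∃ c : k, algebraMap k K c = x) (s : Ω ≃ₐ[K] Ω) :
    ∃ t ∈ GeoK k K Ω, ∀ w, acN K a t w = acN K a s w :=
  hgeo_of_map (SmN.Fnl.exists_fr_poly a h2 hm hsep ha hG hd hK).1 s

end Pool.Agent.SmNH
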