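import Pool.Agent.Lib.SmNH.Inst.NmK
import Pool.Agent.Lib.GBU.Div
import Pool.Agent.Lib.GBC.E.Main
import Pool.Agent.Lib.SmN.R.Hb

/-!
# HEIGHTS over a global function field, instance: the product formula (K1) and the structure `HOk`

`prodK`: for a cocycle `h` with values in the roots of unity of order a power of `2`, the sum of the
`deg v • nm v (h (sg v))` is `0`. `hOk_of`: `HOk` from the Weil pairing and the Hasse principle.
-/

set_option autoImplicit false

namespace Pool.Agent.SmNH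

open Pool.Agent.BSDFF Pool.Agent.Lib.SmD Pool.Agent.SmD Pool.Agent.GBC Pool.Agent.GBU
open Pool.Agent.SmP Pool.Agent.SmN.R Pool.Agent.SmN

section prod

variable {k K : Type} [Field k] [Finite k] [Field K] [Algebra k K] [Algebra (RatFunc k) K]
  [IsScalarTower k (RatFunc k) K] [FiniteDimensional (RatFunc k) K]
  [Algebra.IsSeparable (RatFunc k) K] {Om : Type} [Field Om] [Algebra K Om] [IsSepClosure K Om]

/-- **K1**, the product formula over a global function field. -/
theorem prodK (h2 : (2 : k) ≠ 0) {nm : Place k K → MuT Om →+ MuT Om} (hnm : IsNmK nm)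
    (h : (Om ≃ₐ[K] Om) → MuT Om)
    (htf : ∃ N : Subgroup (Om ≃ₐ[K] Om), N.Normal ∧ IsOpen (N : Set (Om ≃ₐ[K] Om)) ∧
      ∀ s, ∀ n ∈ N, h (s * n) = h s)
    (hc : ∀ s t, h (s * t) = h s + s • h t) :
    ∑ᶠ v : Place k K, v.degree • nm v (h (sgK Om v)) = 0 := by
  classical
  have hg : IsGalois K Om := IsSepClosure.isGalois
  have hsc : IsSepClosed Om := IsSepClosure.sep_closed K
  obtain ⟨N, hN, hNo, hNh⟩ := htf
  -- a bound for the exponent
  obtain ⟨e, he⟩ : ∃ e : ℕ, ∀ s, (2 : ℕ) ^ e • h s = 0 := by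
    have hfin : Finite ((Om ≃ₐ[K] Om) ⧸ N) := Subgroup.quotient_finite_of_isOpen _ hNo
    have := Fintype.ofFinite ((Om ≃ₐ[K] Om) ⧸ N)
    choose j hj using fun x : (Om ≃ₐ[K] Om) ⧸ N => (h x.out).tors
    refine ⟨Finset.univ.sup j, fun s => ?_⟩
    obtain ⟨n, hn⟩ := QuotientGroup.mk_out_eq_mul N s
    have h1 : h s = h (s : (Om ≃ₐ[K] Om) ⧸ N).out := by rw [hn, hNh s _ n.2]
    have h3 : j (s : (Om ≃ₐ[K] Om) ⧸ N) ≤ Finset.univ.sup j := Finset.le_sup (Finset.mem_univ _)
    rw [h1, ← Nat.sub_add_cancel h3, pow_add, mul_smul, hj, smul_zero]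
  -- Hilbert 90
  obtain ⟨y, hy⟩ := h90K (⊤ : Subgroup (Om ≃ₐ[K] Om)) (fun s => Additive.toMul (h s).1)
    ⟨N, hN, hNo, fun s _ n hn _ => congrArg (fun u : MuT Om => Additive.toMul u.1) (hNh s n hn)⟩
    (fun s _ t _ => by
      have h1 := congrArg (fun u : MuT Om => Additive.toMul u.1) (hc s t)
      exact h1)
  have hy' : ∀ s : Om ≃ₐ[K] Om, s (y : Om) = (h s).el * (y : Om) := by
    intro s
    have h1 : Additive.toMul (h s).1 * y = s • y := by
      rw [hy s (Subgroup.mem_top s), inv_mul_cancel_right]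
    exact (congrArg (fun u : Omˣ => (u : Om)) h1).symm
  obtain ⟨f, hf⟩ : ∃ f : K, algebraMap K Om f = (y : Om) ^ 2 ^ e := by
    have h1 : (y : Om) ^ 2 ^ e ∈ (⊥ : IntermediateField K Om) := by
      rw [InfiniteGalois.mem_bot_iff_fixed]
      intro g
      rw [map_pow, hy', mul_pow, ← MuT.el_nsmul, he, MuT.el_zero, one_mul]
    rwa [IntermediateField.mem_bot] at h1
  have hf0 : f ≠ 0 := by
    rintro rfl
    rw [map_zero] at hf
    exact pow_ne_zero _ y.ne_zero hf.symm
  have key : ∀ v : Place k K, nm v (h (sgK Om v)) = ord v f • zet Om e := fun v =>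
    nm_of_root h2 hnm v hf0 hf.symm (hy' _)
  obtain ⟨G, -⟩ := exists_geo k K
  obtain ⟨P, hP⟩ := exists_pdiv G hf0
  have e1 : ∀ v : Place k K, v.degree • nm v (h (sgK Om v)) = ((v.degree : ℤ) * P v) • zet Om e := by
    intro v
    rw [key, ← hP, mul_smul, natCast_zsmul]
  rw [finsum_congr e1, finsum_eq_sum_of_support_subset (s := P.support) _ (fun v hv => by
    rw [Finset.mem_coe, Finsupp.mem_support_iff]
    intro h0
    apply hv
    change ((v.degree : ℤ) * P v) • zet Om e = 0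
    rw [h0, mul_zero, zero_smul]), ← Finset.sum_smul]
  have h4 : ∑ v ∈ P.support, (v.degree : ℤ) * P v = degD P := by
    rw [degD, Finsupp.sum]
  rw [h4, degD_prin G ⟨f, hf0, hP⟩, zero_smul]

end prod

section hok

variable {k K : Type} [Field k] [Finite k] [Field K] [Algebra k K] [Algebra (RatFunc k) K]
  [IsScalarTower k (RatFunc k) K] [FiniteDimensional (RatFunc k) K]
  [Algebra.IsSeparable (RatFunc k) K] {Om : Type} [Field Om] [Algebra K Om] [IsSepClosure K Om]
  {V V1 : Type*} [AddCommGroup V] [DistribMulAction (Om ≃ₐ[K] Om) V]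
  [AddCommGroup V1] [Module (ZMod 2) V1]

/-- `HOk` for a system over `Gal(Om / K)` with the standard local data. -/
theorem hOk_of (h2 : (2 : k) ≠ 0) (S : Sys (Om ≃ₐ[K] Om) V V1 (Place k K))
    (H : HData V (MuT Om) (Place k K)) (hNN : S.NN = NP K Om) (hsg : ∀ v, S.sg v = sgK Om v)
    (hj : H.j = hfM Om) (hdeg : ∀ v, H.deg v = v.degree) (hnm : IsNmK H.nm)
    (hinj : ∀ v, Function.Injective (H.nm v)) (hnmj : ∀ v a, H.nm v (hfM Om a) = hfM Om a)
    (hweil : Weil S H.e H.j)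
    (hasse : ∀ c : (Om ≃ₐ[K] Om) → (Om ≃ₐ[K] Om) → MuT Om, S.TF2 c →
      (∀ s t w, c s t + c (s * t) w = s • c t w + c s (t * w)) →
      (∀ v, S.Coh (S.D v) c (fun _ _ => 0)) →
      ∃ b : (Om ≃ₐ[K] Om) → MuT Om, S.TF b ∧ ∀ s t, c s t = b s + s • b t - b (s * t)) :
    HOk S H := by
  have hg : IsGalois K Om := IsSepClosure.isGalois
  have hsc : IsSepClosed Om := IsSepClosure.sep_closed K
  have h2O : (2 : Om) ≠ 0 := two_OmK k K Om h2
  obtain ⟨p, -, hp, hpo, -, -, hch⟩ := exists_char k K Om h2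
  have hpf : Fact p.Prime := ⟨hp⟩
  refine ⟨hweil, ?_, ?_, MuT.tors, MuT.half h2O, ?_, ?_, hinj, ?_, ?_, hasse⟩
  · rw [hj]
    exact hfM_inj h2O
  · intro m hm
    rw [hj]
    exact MuT.two h2O m hm
  · intro m
    obtain ⟨N, hN, h1⟩ := MuT.act (K := K) h2O m
    exact ⟨N, by rw [hNN]; exact NN_subset_NP (two_ne_K h2) hN, h1⟩
  · intro v m
    rw [hsg]
    exact MuT.smul_iner hpo (sgK_iner h2 v) m
  · intro v a
    rw [hj]
    exact hnmj v a
  · intro h htf hc
    obtain ⟨N, hN, h1⟩ := htf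
    rw [hNN] at hN
    have e1 : ∀ v, H.deg v • H.nm v (h (S.sg v)) = v.degree • H.nm v (h (sgK Om v)) := fun v => by
      rw [hdeg, hsg]
    rw [finsum_congr e1]
    exact prodK h2 hnm h ⟨N, NP.normal hN, NP.isOpen hN, h1⟩ hc

end hok

end Pool.Agent.SmNH
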