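import Pool.Agent.Lib.SmN.R.LocK
import Pool.Agent.Lib.SmNH.Defs

/-!
# HEIGHTS over a global function field, instance: the normalisation of the tame generators

`IsNmK nm`: `nm v` sends `sg v y / y`, `y ^ (2 ^ m)` a uniformizer of `v`, to `zet m`.
`exists_nmK`: existence, `nm v` is injective and fixes `-1`.
-/

set_option autoImplicit false

namespace Pool.Agent.SmNH

open Pool.Agent.BSDFF Pool.Agent.Lib.SmD Pool.Agent.SmD Pool.Agent.GBC Pool.Agent.GBU
open Pool.Agent.SmP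

section zets

variable {Om : Type} [Field Om]

theorem zetK_two_pow {ζ : ℕ → MuT Om} (hz : IsZet ζ) (j m : ℕ) :
    (2 : ℕ) ^ j • ζ (m + j) = ζ m := by
  induction j with
  | zero => rw [pow_zero, one_smul, add_zero]
  | succ j ih => rw [pow_succ, mul_smul, ← add_assoc, hz.2.1, ih]

theorem zetK_pow {ζ : ℕ → MuT Om} (hz : IsZet ζ) (m : ℕ) : (2 : ℕ) ^ m • ζ m = 0 := by
  have := zetK_two_pow hz m 0
  rwa [zero_add, hz.1] at this

theorem zetK_one_ne {ζ : ℕ → MuT Om} (hz : IsZet ζ) (h2 : (2 : Om) ≠ 0) : ζ 1 ≠ 0 := by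
  intro h
  have h1 := hz.2.2
  rw [h, MuT.el_zero] at h1
  apply h2
  rw [← one_add_one_eq_two]
  nth_rewrite 1 [h1]
  exact neg_add_cancel 1

theorem zetK_order {ζ : ℕ → MuT Om} (hz : IsZet ζ) (h2 : (2 : Om) ≠ 0) (m : ℕ) :
    addOrderOf (ζ m) = 2 ^ m := by
  cases m with
  | zero => rw [hz.1, addOrderOf_zero, pow_zero]
  | succ n =>
    have : Fact (Nat.Prime 2) := ⟨Nat.prime_two⟩
    refine addOrderOf_eq_prime_pow ?_ (zetK_pow hz _)
    have h1 := zetK_two_pow hz n 1
    rw [add_comm 1 n] at h1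
    rw [h1]
    exact zetK_one_ne hz h2

theorem zetK_prim {ζ : ℕ → MuT Om} (hz : IsZet ζ) (h2 : (2 : Om) ≠ 0) (m : ℕ) :
    IsPrimitiveRoot (ζ m).el (2 ^ m) := by
  refine ⟨by rw [← MuT.el_nsmul, zetK_pow hz, MuT.el_zero], fun l hl => ?_⟩
  rw [← zetK_order hz h2 m]
  refine addOrderOf_dvd_of_nsmul_eq_zero (MuT.el_inj ?_)
  rw [MuT.el_nsmul, hl, MuT.el_zero]

theorem zetK_gen {ζ : ℕ → MuT Om} (hz : IsZet ζ) (h2 : (2 : Om) ≠ 0) {m : ℕ} {u : MuT Om}
    (hu : (2 : ℕ) ^ m • u = 0) : ∃ a : ℕ, u = a • ζ m := by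
  have h1 : u.el ^ 2 ^ m = 1 := by rw [← MuT.el_nsmul, hu, MuT.el_zero]
  obtain ⟨a, -, ha⟩ := (zetK_prim hz h2 m).eq_pow_of_pow_eq_one h1
  exact ⟨a, MuT.el_inj (by rw [MuT.el_nsmul, ha])⟩

theorem zetK_gen' {ζ : ℕ → MuT Om} (hz : IsZet ζ) (h2 : (2 : Om) ≠ 0) (u : MuT Om) :
    ∃ p : ℕ × ℕ, u = p.1 • ζ p.2 := by
  obtain ⟨j, hj⟩ := u.tors
  obtain ⟨a, ha⟩ := zetK_gen hz h2 hj
  exact ⟨(a, j), ha⟩

theorem zetK_eq_iff {ζ : ℕ → MuT Om} (hz : IsZet ζ) (h2 : (2 : Om) ≠ 0) (a a' j j' : ℕ) :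
    a • ζ j = a' • ζ j' ↔ a * 2 ^ j' ≡ a' * 2 ^ j [MOD 2 ^ (j + j')] := by
  have h1 : ζ j = (2 : ℕ) ^ j' • ζ (j + j') := (zetK_two_pow hz j' j).symm
  have h3 : ζ j' = (2 : ℕ) ^ j • ζ (j + j') := by
    rw [add_comm j j']
    exact (zetK_two_pow hz j j').symm
  rw [h1, h3, smul_smul, smul_smul, nsmul_eq_nsmul_iff_modEq, zetK_order hz h2]

/-- There is an injective homomorphism which sends one compatible system of roots of unity to
another one. -/
theorem exists_zetHom {ζ η : ℕ → MuT Om} (hz : IsZet ζ) (he : IsZet η) (h2 : (2 : Om) ≠ 0) :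
    ∃ φ : MuT Om →+ MuT Om, Function.Injective φ ∧ ∀ m, φ (ζ m) = η m := by
  choose p hp using zetK_gen' hz h2
  have key : ∀ a a' j j' : ℕ, a • ζ j = a' • ζ j' ↔ a • η j = a' • η j' := fun a a' j j' => by
    rw [zetK_eq_iff hz h2, zetK_eq_iff he h2]
  have hval : ∀ a j : ℕ, (p (a • ζ j)).1 • η (p (a • ζ j)).2 = a • η j := fun a j =>
    (key _ _ _ _).1 (hp (a • ζ j)).symm
  refine ⟨AddMonoidHom.mk' (fun u => (p u).1 • η (p u).2) ?_, ?_, fun m => ?_⟩
  · intro u v
    obtain ⟨⟨a, j⟩, rfl⟩ := zetK_gen' hz h2 u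
    obtain ⟨⟨b, l⟩, rfl⟩ := zetK_gen' hz h2 v
    have h1 : ∀ {θ : ℕ → MuT Om}, IsZet θ →
        a • θ j + b • θ l = (a * 2 ^ l + b * 2 ^ j) • θ (j + l) := by
      intro θ hθ
      have e1 : θ j = (2 : ℕ) ^ l • θ (j + l) := (zetK_two_pow hθ l j).symm
      have e2 : θ l = (2 : ℕ) ^ j • θ (j + l) := by
        rw [add_comm j l]
        exact (zetK_two_pow hθ j l).symm
      rw [e1, e2, smul_smul, smul_smul, ← add_smul]
    change (p _).1 • η (p _).2 = (p _).1 • η (p _).2 + (p _).1 • η (p _).2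
    dsimp only
    rw [hval, hval, h1 hz, hval, h1 he]
  · intro u v h
    change (p u).1 • η (p u).2 = (p v).1 • η (p v).2 at h
    rw [hp u, hp v]
    exact (key _ _ _ _).2 h
  · change (p _).1 • η (p _).2 = η m
    have := hval 1 m
    rwa [one_smul, one_smul] at this

end zets

theorem two_OmK (k K Om : Type) [Field k] [Field K] [Algebra k K] [Field Om] [Algebra K Om]
    (h2 : (2 : k) ≠ 0) : (2 : Om) ≠ 0 := by
  have h1 := (map_ne_zero_iff _ (algebraMap k K).injective).2 h2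
  have h3 := (map_ne_zero_iff _ (algebraMap K Om).injective).2 h1
  rwa [map_ofNat, map_ofNat] at h3

section nm

variable {k K : Type} [Field k] [Finite k] [Field K] [Algebra k K] [Algebra (RatFunc k) K]
  [IsScalarTower k (RatFunc k) K] [FiniteDimensional (RatFunc k) K]
  {Om : Type} [Field Om] [Algebra K Om]

/-- The normalisation of the tame generators. -/
def IsNmK (nm : Place k K → MuT Om →+ MuT Om) : Prop :=
  ∀ (v : Place k K) (π : v.ring), Irreducible π → ∀ (m : ℕ) (y : Om),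
    y ^ 2 ^ m = algebraMap K Om (π : K) → ∀ u : MuT Om, sgK Om v y = u.el * y → nm v u = zet Om m

omit [Finite k] [Algebra k K] [Algebra (RatFunc k) K] [IsScalarTower k (RatFunc k) K]
  [FiniteDimensional (RatFunc k) K] [Field K] [Field k] [Algebra K Om] in
theorem exists_rootK [IsSepClosed Om] (h2O : (2 : Om) ≠ 0) (m : ℕ) (x : Om) :
    ∃ y : Om, y ^ 2 ^ m = x := by
  induction m generalizing x with
  | zero => exact ⟨x, by rw [pow_zero, pow_one]⟩
  | succ m ih =>
    obtain ⟨r, hr⟩ := exists_sqrt h2O x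
    obtain ⟨y, hy⟩ := ih r
    exact ⟨y, by rw [pow_succ, pow_mul, hy, hr]⟩

omit [Finite k] [Algebra k K] [Algebra (RatFunc k) K] [IsScalarTower k (RatFunc k) K]
  [FiniteDimensional (RatFunc k) K] [Field k] in
/-- Inertia fixes the roots of units of order a power of `2`. -/
theorem iner_root_unit {w : ValuationSubring Om} (h2 : w.valuation 2 = 1) {σ : Om ≃ₐ[K] Om}
    (hσ : σ ∈ iner K w) (r : ℕ) : ∀ z : Om, w.valuation z = 1 → σ (z ^ 2 ^ r) = z ^ 2 ^ r →
      σ z = z := by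
  induction r with
  | zero => intro z _ hz; rwa [pow_zero, pow_one] at hz
  | succ r ih =>
    intro z h1 hz
    have h3 : w.valuation (z ^ 2) = 1 := by rw [map_pow, h1, one_pow]
    refine sqrt_fix_iner h2 hσ h3 (ih _ h3 ?_) rfl
    rwa [← pow_mul, ← pow_succ']

omit [Finite k] [Algebra (RatFunc k) K] [IsScalarTower k (RatFunc k) K]
  [FiniteDimensional (RatFunc k) K] in
theorem ord_irred (v : Place k K) {π : v.ring} (hπ : Irreducible π) : ord v (π : K) = 1 := by
  obtain ⟨u, hu⟩ := IsDiscreteValuationRing.associated_of_irreducible v.ring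
    (unif_irreducible v) hπ
  have h1 := (val_one_iff_unit (v := v) (u : v.ring)).1 u.isUnit
  rw [← hu]
  change ord v ((unif v : K) * ((u : v.ring) : K)) = 1
  rw [ord_mul v (unifK_ne v) h1.1, ord_unif, h1.2, add_zero]

variable [IsSepClosure K Om]

/-- The tame generator on a root of an element of `K`. -/
theorem sg_root (h2 : (2 : k) ≠ 0) (v : Place k K) {π : v.ring} (hπ : Irreducible π) {m : ℕ}
    {y z : Om} (hy : y ^ 2 ^ m = algebraMap K Om (π : K)) {f : K} (hf : f ≠ 0)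
    (hz : z ^ 2 ^ m = algebraMap K Om f) :
    sgK Om v z = (sgK Om v y / y) ^ ord v f * z := by
  have hg : IsGalois K Om := IsSepClosure.isGalois
  have hsc : IsSepClosed Om := IsSepClosure.sep_closed K
  set w := abK Om v with hw
  have hb : below K w = v.ring := below_abK Om v
  have hL := locHyp_of_below h2 v w hb hπ
  have hπ0 : (π : K) ≠ 0 := hL.pi_ne
  have hinj := (algebraMap K Om).injective
  have hy0 : y ≠ 0 := by
    rintro rfl
    rw [zero_pow (by positivity)] at hy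
    exact (map_ne_zero_iff _ hinj).2 hπ0 hy.symm
  have hz0 : z ≠ 0 := by
    rintro rfl
    rw [zero_pow (by positivity)] at hz
    exact (map_ne_zero_iff _ hinj).2 hf hz.symm
  set n : ℤ := ord v f with hn
  set u : K := f / (π : K) ^ n with hu
  have hu0 : u ≠ 0 := div_ne_zero hf (zpow_ne_zero _ hπ0)
  have hordπ : ord v (π : K) = 1 := ord_irred v hπ
  have hord : ord v u = 0 := by
    rw [hu, ord_div v hf (zpow_ne_zero _ hπ0), ord_zpow v hπ0, hordπ, mul_one, hn, sub_self]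
  have hval : w.valuation (algebraMap K Om u) = 1 := by
    refine val_unit_below ?_ ?_ hu0
    · rw [hb, mem_ring_iff v hu0, hord]
    · rw [hb, mem_ring_iff v (inv_ne_zero hu0), ord_inv v hu0, hord, neg_zero]
  set r : Om := z / y ^ n with hr
  have hrp : r ^ 2 ^ m = algebraMap K Om u := by
    rw [hr, div_pow, hz, ← zpow_natCast (y ^ n), ← zpow_mul, mul_comm n, zpow_mul, zpow_natCast, hy,
      hu, map_div₀, map_zpow₀]
  have hrv : w.valuation r = 1 := by
    have : w.valuation r ^ (2 ^ m) = 1 := by rw [← map_pow, hrp, hval]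
    exact (pow_eq_one_iff.1 this).resolve_right (by positivity)
  have hfix : sgK Om v r = r :=
    iner_root_unit hL.two (sgK_iner h2 v) m r hrv (by rw [hrp, AlgEquiv.commutes])
  have hzr : z = r * y ^ n := by rw [hr, div_mul_cancel₀ _ (zpow_ne_zero _ hy0)]
  have h3 : sgK Om v (y ^ n) = (sgK Om v y / y) ^ n * y ^ n := by
    rw [div_zpow, div_mul_cancel₀ _ (zpow_ne_zero _ hy0), map_zpow₀]
  rw [hzr, map_mul, hfix, h3]
  ring

/-- The system of roots of unity which belongs to the tame generator. -/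
theorem exists_zetaK (h2 : (2 : k) ≠ 0) (v : Place k K) : ∃ ζ : ℕ → MuT Om, IsZet ζ ∧
    ∀ π : v.ring, Irreducible π → ∀ (m : ℕ) (y : Om), y ^ 2 ^ m = algebraMap K Om (π : K) →
      ∀ u : MuT Om, sgK Om v y = u.el * y → u = ζ m := by
  have hg : IsGalois K Om := IsSepClosure.isGalois
  have hsc : IsSepClosed Om := IsSepClosure.sep_closed K
  have h2O : (2 : Om) ≠ 0 := two_OmK k K Om h2
  choose y hy using fun m : ℕ => exists_rootK h2O m (algebraMap K Om (unif v : K))
  have hu0 : algebraMap K Om (unif v : K) ≠ 0 :=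
    (map_ne_zero_iff _ (algebraMap K Om).injective).2 (unifK_ne v)
  have hne : ∀ {z : Om} {m : ℕ} {x : Om}, x ≠ 0 → z ^ 2 ^ m = x → z ≠ 0 := by
    rintro z m x hx hz rfl
    rw [zero_pow (by positivity)] at hz
    exact hx hz.symm
  have hyne : ∀ m, y m ≠ 0 := fun m => hne hu0 (hy m)
  have hpow : ∀ m, (sgK Om v (y m) / y m) ^ 2 ^ m = 1 := by
    intro m
    rw [div_pow, ← map_pow, hy, AlgEquiv.commutes, div_self hu0]
  have hirr := unif_irreducible v
  have hone : ∀ {π : v.ring}, Irreducible π → ∀ {m : ℕ} {z : Om},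
      z ^ 2 ^ m = algebraMap K Om (π : K) → sgK Om v z = (sgK Om v (y m) / y m) * z := by
    intro π hπ m z hz
    have hπ0 : (π : K) ≠ 0 := fun h => hπ.ne_zero (Subtype.ext h)
    rw [sg_root h2 v hirr (hy m) hπ0 hz, ord_irred v hπ, zpow_one]
  refine ⟨fun m => MuT.mk _ m (hpow m), ⟨?_, fun m => ?_, ?_⟩, fun π hπ m z hz u hu => ?_⟩
  · apply MuT.el_inj
    rw [MuT.el_mk, MuT.el_zero]
    have := hpow 0
    rwa [pow_zero, pow_one] at this
  · apply MuT.el_inj
    rw [MuT.el_nsmul, MuT.el_mk, MuT.el_mk]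
    have h3 : (y (m + 1) ^ 2) ^ 2 ^ m = algebraMap K Om (unif v : K) := by
      rw [← pow_mul, ← pow_succ', hy]
    have h4 := hone hirr h3
    rw [map_pow] at h4
    rw [div_pow, h4, mul_div_assoc, div_self (pow_ne_zero 2 (hyne _)), mul_one]
  · rw [MuT.el_mk]
    have h3 := (locVals (k := k) (K := K) (Om := Om) h2 v).sg_unif (unif v) hirr
    have h4 : y 1 ^ 2 = algebraMap K Om (unif v : K) := by
      have := hy 1
      rwa [pow_one] at this
    rw [(chi_eq_one_iff h2O (unifK_ne v) _ h4).1 h3, neg_div, div_self (hyne 1)]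
  · apply MuT.el_inj
    rw [MuT.el_mk]
    have hπ0 : algebraMap K Om (π : K) ≠ 0 :=
      (map_ne_zero_iff _ (algebraMap K Om).injective).2 fun h => hπ.ne_zero (Subtype.ext h)
    have h3 := hone hπ hz
    rw [hu] at h3
    exact mul_right_cancel₀ (hne hπ0 hz) h3

theorem isZet_zet (h2O : (2 : Om) ≠ 0) [IsSepClosed Om] : IsZet (zet Om) :=
  ⟨zet_zero, fun m => two_zet m, el_zet_one h2O⟩

/-- Existence of the normalisation. -/
theorem exists_nmK (h2 : (2 : k) ≠ 0) : ∃ nm : Place k K → MuT Om →+ MuT Om, IsNmK nm ∧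
    (∀ v, Function.Injective (nm v)) ∧ ∀ v a, nm v (hfM Om a) = hfM Om a := by
  have hsc : IsSepClosed Om := IsSepClosure.sep_closed K
  have h2O : (2 : Om) ≠ 0 := two_OmK k K Om h2
  choose ζ hζ hζu using fun v : Place k K => exists_zetaK (Om := Om) h2 v
  choose φ hφ hφz using fun v => exists_zetHom (hζ v) (isZet_zet h2O) h2O
  refine ⟨φ, fun v π hπ m y hy u hu => ?_, hφ, fun v a => ?_⟩
  · rw [hζu v π hπ m y hy u hu, hφz]
  · have h01 : a = 0 ∨ a = 1 := by
      revert a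
      decide
    rcases h01 with rfl | rfl
    · rw [map_zero, map_zero]
    · rw [hfM_one]
      have h1 : zet Om 1 = ζ v 1 := MuT.el_inj (by rw [el_zet_one h2O, (hζ v).2.2])
      conv_lhs => rw [h1, hφz]

theorem el_zsmulK (n : ℤ) (u : MuT Om) : (n • u).el = u.el ^ n := by
  cases n with
  | ofNat n => rw [Int.ofNat_eq_natCast, natCast_zsmul, MuT.el_nsmul, zpow_natCast]
  | negSucc n =>
    have h1 : (Int.negSucc n • u) + (n + 1) • u = 0 := by
      rw [negSucc_zsmul, neg_add_cancel]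
    have h3 := congrArg MuT.el h1
    rw [MuT.el_add, MuT.el_nsmul, MuT.el_zero] at h3
    rw [zpow_negSucc]
    exact eq_inv_of_mul_eq_one_left h3

/-- The order of a cocycle at a place. -/
theorem nm_of_root (h2 : (2 : k) ≠ 0) {nm : Place k K → MuT Om →+ MuT Om} (hnm : IsNmK nm)
    (v : Place k K) {e : ℕ} {z : Om} {f : K} (hf : f ≠ 0) (hz : z ^ 2 ^ e = algebraMap K Om f)
    {u : MuT Om} (hu : sgK Om v z = u.el * z) : nm v u = ord v f • zet Om e := by
  have hsc : IsSepClosed Om := IsSepClosure.sep_closed K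
  have h2O : (2 : Om) ≠ 0 := two_OmK k K Om h2
  obtain ⟨y, hy⟩ := exists_rootK h2O e (algebraMap K Om (unif v : K))
  have hinj := (algebraMap K Om).injective
  have hu0 : algebraMap K Om (unif v : K) ≠ 0 := (map_ne_zero_iff _ hinj).2 (unifK_ne v)
  have hy0 : y ≠ 0 := by
    rintro rfl
    rw [zero_pow (by positivity)] at hy
    exact hu0 hy.symm
  have hz0 : z ≠ 0 := by
    rintro rfl
    rw [zero_pow (by positivity)] at hz
    exact (map_ne_zero_iff _ hinj).2 hf hz.symm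
  have hpow : (sgK Om v y / y) ^ 2 ^ e = 1 := by
    rw [div_pow, ← map_pow, hy, AlgEquiv.commutes, div_self hu0]
  have h1 := hnm v (unif v) (unif_irreducible v) e y hy (MuT.mk _ e hpow)
    (by rw [MuT.el_mk, div_mul_cancel₀ _ hy0])
  have h3 := sg_root h2 v (unif_irreducible v) hy hf hz
  rw [hu] at h3
  have h4 : u = ord v f • MuT.mk _ e hpow := by
    apply MuT.el_inj
    rw [el_zsmulK, MuT.el_mk]
    exact mul_right_cancel₀ hz0 h3
  rw [h4, map_zsmul, h1]

end nm

end Pool.Agent.SmNH
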